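import Pool.Agent.Helper34.FF.Goals1

/-!
# M3. Walks can avoid the interiors of obstacles
-/

namespace Pool.Agent.Helper32.FF

open Finset Pool.Agent.Helper34.FF
open scoped symmDiff Classical

/-- Concatenation of walks. -/
theorem within_trans {V : Type} {G : SimpleGraph V} {s t : ℕ} {x y z : V}
    (h1 : Within G s x y) (h2 : Within G t y z) : Within G (s + t) x z := by
  obtain ⟨k, hk, a, ha0, hak, ha⟩ := h1
  obtain ⟨l, hl, b, hb0, hbl, hb⟩ := h2
  refine ⟨k + l, by omega, fun i => if i ≤ k then a i else b (i - k), ?_, ?_, ?_⟩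
  · simp [ha0]
  · by_cases h : l = 0
    · subst h
      simp [hak]
      rw [← hb0, hbl]
    · have h' : ¬ (k + l ≤ k) := by omega
      simp [h', hbl]
  · intro i hi
    by_cases h : i < k
    · have h1 : i ≤ k := by omega
      have h2 : i + 1 ≤ k := by omega
      simp only [h1, h2, if_true]
      exact ha i h
    · have h2 : ¬ (i + 1 ≤ k) := by omega
      have e2 : i + 1 - k = (i - k) + 1 := by omega
      simp only [h2, if_false]
      by_cases h3 : i ≤ k
      · have h4 : i = k := by omega
        subst h4
        simp only [le_refl, if_true]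
        have := hb 0 (by omega)
        rw [hb0, ← hak] at this
        have e3 : i + 1 - i = 0 + 1 := by omega
        rw [e3]
        exact this
      · simp only [h3, if_false]
        rw [e2]
        exact hb (i - k) (by omega)

/-- An inner edge of `X` is an edge, and some face of `X` contains it. -/
theorem inn_face {V F : Type} [Fintype V] [Fintype F] (T : Tri V F) {X : Finset F} {e : Sym2 V}
    (he : e ∈ T.inn X) : e ∈ T.G.edgeSet ∧ (X.filter fun f => T.on e f).card = 2 := by
  simpa [Tri.inn] using he

/-- An edge of the boundary of `X` is an edge, and some face of `X` contains it. -/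
theorem bdry_face {V F : Type} [Fintype V] [Fintype F] (T : Tri V F) {X : Finset F} {e : Sym2 V}
    (he : e ∈ T.bdry X) : e ∈ T.G.edgeSet ∧ (X.filter fun f => T.on e f).card = 1 := by
  simpa [Tri.bdry] using he

/-- Two inner faces of `Y` leave no face in a disjoint set. -/
theorem no_face {V F : Type} [Fintype V] [Fintype F] (hAlg : StmtAlg) (T : Tri V F)
    {X Y : Finset F} (hd : Disjoint X Y) {e : Sym2 V} (he : e ∈ T.inn Y) :
    (X.filter fun f => T.on e f).card = 0 := by
  obtain ⟨h1, h2⟩ := inn_face T he
  have h3 := (hAlg V F T).2.2.2.1 e h1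
  have h4 : Disjoint (X.filter fun f => T.on e f) (Y.filter fun f => T.on e f) := by
    apply Finset.disjoint_filter_filter
    exact hd
  have h5 : (X.filter fun f => T.on e f) ∪ (Y.filter fun f => T.on e f) ⊆
      univ.filter fun f => T.on e f := by
    intro f hf
    simp only [mem_union, mem_filter, mem_univ, true_and] at hf ⊢
    tauto
  have h6 := card_le_card h5
  rw [card_union_of_disjoint h4] at h6
  omega

/-- Boundary edges of an obstacle lie in the avoiding graph. -/
theorem bdry_avoid {V F : Type} [Fintype V] [Fintype F] (hAlg : StmtAlg) (T : Tri V F)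
    {Ds : Finset (Finset F)} (hO : T.Obst Ds) {X : Finset F} (hX : X ∈ Ds) {v w : V}
    (he : s(v, w) ∈ T.bdry X) : (T.avoid Ds).Adj v w := by
  obtain ⟨h1, h2⟩ := bdry_face T he
  refine ⟨by simpa using h1, ?_⟩
  intro Y hY hi
  by_cases hXY : X = Y
  · subst hXY
    exact Finset.disjoint_left.mp ((hAlg V F T).2.2.2.2.2.1 X) he hi
  · have := no_face hAlg T (hO.2 X hX Y hY hXY) hi
    omega

/-- A vertex on an inner edge of `X` lies on a face of `X`. -/
theorem on_face {V F : Type} [Fintype V] [Fintype F] (T : Tri V F) {X : Finset F} {e : Sym2 V}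
    (he : e ∈ T.inn X) {v : V} (hv : v ∈ e) : ∃ f ∈ X, v ∈ T.tri f := by
  obtain ⟨h1, h2⟩ := inn_face T he
  have h3 : (X.filter fun f => T.on e f).Nonempty := by
    rw [← Finset.card_pos]
    omega
  obtain ⟨f, hf⟩ := h3
  rw [mem_filter] at hf
  exact ⟨f, hf.1, hf.2 v hv⟩

theorem main {V F : Type} [Fintype V] [Fintype F] (hAlg : StmtAlg) (hTri : StmtTri) (T : Tri V F)
    (hS : T.Sphere) {Ds : Finset (Finset F)} (hO : T.Obst Ds) :
    ∀ k : ℕ, ∀ a x y, IsW T.G k a x y → (∀ X ∈ Ds, x ∉ T.Vin X) → (∀ X ∈ Ds, y ∉ T.Vin X) →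
      Within (T.avoid Ds) k x y := by
  intro k
  induction k using Nat.strong_induction_on with
  | _ k ih =>
  intro a x y hw hx hy
  obtain ⟨h0, hk, ha⟩ := hw
  by_cases hk0 : k = 0
  · subst hk0
    exact ⟨0, le_refl _, a, h0, hk, fun i hi => absurd hi (by omega)⟩
  have hvin := fun X => (hAlg V F T).2.2.2.2.2.2 X
  by_cases hbad : ∃ X ∈ Ds, s(a 0, a (0 + 1)) ∈ T.inn X
  · obtain ⟨X, hX, hb⟩ := hbad
    -- the number of edges of the first part
    let P : ℕ → Prop := fun p => p = k ∨ s(a p, a (p + 1)) ∉ T.inn X
    have hP : ∃ p, P p := ⟨k, Or.inl rfl⟩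
    set p := Nat.find hP with hp
    have hp1 : P p := Nat.find_spec hP
    have hpk : p ≤ k := Nat.find_min' hP (Or.inl rfl)
    have hp2 : ∀ i < p, s(a i, a (i + 1)) ∈ T.inn X := by
      intro i hi
      have := Nat.find_min hP hi
      by_contra hc
      exact this (Or.inr hc)
    have hp0 : 0 < p := by
      rcases Nat.eq_zero_or_pos p with h | h
      · exfalso
        rw [h] at hp1
        rcases hp1 with h' | h'
        · exact hk0 h'.symm
        · exact h' hb
      · exact h
    -- the vertex at `p`
    have hpe : s(a (p - 1), a p) ∈ T.inn X := by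
      have := hp2 (p - 1) (by omega)
      have e : p - 1 + 1 = p := by omega
      rwa [e] at this
    have hpX : a p ∉ T.Vin X := by
      rcases hp1 with h' | h'
      · rw [h', hk]
        exact hy X hX
      · intro hc
        rcases Nat.lt_or_ge p k with h | h
        · exact h' (hvin X (a p) hc _ (by simpa using ha p h) (by simp))
        · have : p = k := by omega
          rw [this, hk] at hc
          exact hy X hX hc
    obtain ⟨f, hfX, hf⟩ := on_face T hpe (v := a p) (by simp)
    have hpY : ∀ Y ∈ Ds, a p ∉ T.Vin Y := by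
      intro Y hY hc
      by_cases hXY : X = Y
      · subst hXY
        exact hpX hc
      · have : f ∈ Y := by
          simp only [Tri.Vin, mem_filter, mem_univ, true_and] at hc
          exact hc f hf
        exact Finset.disjoint_left.mp (hO.2 X hX Y hY hXY) hfX this
    have hpb : a p ∈ T.Vbd X := by
      rcases (hTri V F T hS).1 X (a p) with h | h | h
      · exact absurd h hpX
      · exact h
      · exfalso
        simp only [Tri.Vin, mem_filter, mem_univ, true_and, mem_compl] at h
        exact h f hf hfX
    obtain ⟨g, hgX, hg⟩ := on_face T hb (v := a 0) (by simp)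
    have hxb : x ∈ T.Vbd X := by
      rcases (hTri V F T hS).1 X x with h | h | h
      · exact absurd h (hx X hX)
      · exact h
      · exfalso
        simp only [Tri.Vin, mem_filter, mem_univ, true_and, mem_compl] at h
        rw [h0] at hg
        exact h g hg hgX
    obtain ⟨k', hk', a', hw', hb'⟩ := (hO.1 X hX).2 p a x (a p) hxb hpb
      ⟨h0, rfl, fun i hi => ha i (by omega)⟩
      (fun i hi => mem_union_left _ (hp2 i hi))
    have hA : Within (T.avoid Ds) p x (a p) :=
      ⟨k', hk', a', hw'.1, hw'.2.1, fun i hi => bdry_avoid hAlg T hO hX (hb' i hi)⟩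
    have hB := ih (k - p) (by omega) (fun i => a (i + p)) (a p) y
      ⟨by simp, by
        have e : k - p + p = k := by omega
        simp only [e]
        exact hk, fun i hi => by
        have := ha (i + p) (by omega)
        have e : i + p + 1 = i + 1 + p := by omega
        rwa [e] at this⟩ hpY hy
    have := within_trans hA hB
    have e : p + (k - p) = k := by omega
    rwa [e] at this
  · have hA : Within (T.avoid Ds) 1 x (a 1) := by
      refine ⟨1, le_refl _, a, h0, rfl, ?_⟩
      intro i hi
      have : i = 0 := by omega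
      subst this
      refine ⟨ha 0 (by omega), fun X hX hc => hbad ⟨X, hX, hc⟩⟩
    have h1 : ∀ X ∈ Ds, a 1 ∉ T.Vin X := by
      intro X hX hc
      exact hbad ⟨X, hX, hvin X (a 1) hc _ (by simpa using ha 0 (by omega)) (by simp)⟩
    have hB := ih (k - 1) (by omega) (fun i => a (i + 1)) (a 1) y
      ⟨by simp, by
        have e : k - 1 + 1 = k := by omega
        simp only [e]
        exact hk, fun i hi => ha (i + 1) (by omega)⟩ h1 hy
    have := within_trans hA hB
    have e : 1 + (k - 1) = k := by omega
    rwa [e] at this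

/-- M3. -/
theorem pf_StmtAvoid (hAlg : StmtAlg) (hTri : StmtTri) : StmtAvoid := by
  intro V F _ _ T hS Ds hO t u v hu hv hW
  obtain ⟨k, hk, a, hw⟩ := hW
  obtain ⟨k', hk', r⟩ := main hAlg hTri T hS hO k a u v hw hu hv
  exact ⟨k', le_trans hk' hk, r⟩

end Pool.Agent.Helper32.FF
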